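import Pool.Agent.Helper8.DC.GOOD
import Pool.Agent.Helper69.DC.Goals2

/-!
Packet DC-GOODW (MP_628424_an): the good point, with extra variables.
-/

namespace Pool.Agent.Helper99.DC

open MvPolynomial Finset ComplexConjugate Pool.Agent.Helper69.DC Pool.Agent.Helper8.DC

/-- The inclusion of the variables. -/
def rr (m : ℕ) (L : Type) : V3 m ⊕ (Fin m ⊕ Fin m) → V3 m ⊕ ((Fin m ⊕ L) ⊕ (Fin m ⊕ L)) :=
  Sum.map id (Sum.map Sum.inl Sum.inl)

theorem rr_inj (m : ℕ) (L : Type) : Function.Injective (rr m L) :=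
  Function.Injective.sumMap Function.injective_id
    (Function.Injective.sumMap Sum.inl_injective Sum.inl_injective)

theorem ev_rr {m : ℕ} {L : Type} (P : RR m) (β β' : Fin m → ℂ) (b : ℂ)
    (w w' : Fin m ⊕ L → ℂ) :
    eval (Sum.elim (pt β β' b) (Sum.elim w w')) (rename (rr m L) P) =
      eval (pp β β' b (fun i => w (Sum.inl i)) (fun i => w' (Sum.inl i))) P := by
  rw [eval_rename]
  congr 1
  congr 1
  funext i
  rcases i with i | i | i
  · rfl
  · rfl
  · rfl

/-- **H_GOODW** from `G_LD`, `G_BEZ`. -/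
theorem h_goodw (h1 : Pool.Agent.Helper69.DC.G_LD) (h2 : Pool.Agent.Helper69.DC.G_BEZ) :
    Pool.Agent.Helper69.DC.H_GOODW := by
  intro m N d f hf hm L W hW
  obtain ⟨D, hD, hD2⟩ := h2 (Fin m ⊕ Unit) N f hf.cop
  obtain ⟨k, hk, hkd⟩ := exists_top hf
  have hH : homogeneousComponent d (f k) ≠ 0 := by
    rw [← hkd]
    exact hom_ne_zero hk
  have hP0 : P1 D * P2 (homogeneousComponent d (f k)) * P3 (gg f k) ≠ 0 :=
    mul_ne_zero (mul_ne_zero (P1_ne hD hm) (P2_ne hH hm)) (P3_ne hk)
  have hP1 : rename (rr m L) (P1 D * P2 (homogeneousComponent d (f k)) * P3 (gg f k)) ≠ 0 := by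
    intro h0
    apply hP0
    apply rename_injective _ (rr_inj m L)
    rw [h0, map_zero]
  have hP := mul_ne_zero hP1 hW
  have hex : ∃ (β : Fin m → ℂ) (b : ℂ) (w : Fin m ⊕ L → ℂ),
      b + conj b = ∑ i, β i * conj (β i) ∧
      eval (Sum.elim (pt β (fun i => conj (β i)) b) (Sum.elim w fun i => conj (w i)))
        (rename (rr m L) (P1 D * P2 (homogeneousComponent d (f k)) * P3 (gg f k)) * W) ≠ 0 := by
    by_contra hcon
    push Not at hcon
    exact hP (h1 m (Fin m ⊕ L) _ fun β b w hb => hcon β b w hb)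
  obtain ⟨β, b, w, hb, hev⟩ := hex
  rw [map_mul] at hev
  have e4 := right_ne_zero_of_mul hev
  have hev2 := left_ne_zero_of_mul hev
  rw [ev_rr, map_mul, map_mul] at hev2
  have e3 := right_ne_zero_of_mul hev2
  have e2 := right_ne_zero_of_mul (left_ne_zero_of_mul hev2)
  have e1 := left_ne_zero_of_mul (left_ne_zero_of_mul hev2)
  have ha : ∑ i, β i * conj (β i) - b = conj b := by
    rw [← hb]
    ring
  rw [ev_P1, ha] at e1
  rw [ev_P2] at e2
  rw [ev_P3, ev_gg, ha] at e3
  refine ⟨β, conj b, fun i => w (Sum.inl i), fun i => w (Sum.inr i), ?_, ?_, ?_, ?_, ?_⟩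
  · unfold Null
    rw [Complex.conj_conj, add_comm]
    exact hb
  · intro h0
    exact e3 (congrFun h0 k)
  · intro t h0
    obtain ⟨l, hl⟩ := hD2 _ _ e1 t
    apply hl
    have h3 := congrFun h0 l
    unfold fv at h3
    rw [Pi.zero_apply] at h3
    rw [← h3]
    congr 1
    congr 1
    funext i
    rcases i with i | i
    · rfl
    · rfl
  · intro h0
    apply e2
    have h3 := congrFun h0 k
    unfold AJ la at h3
    rw [Pi.zero_apply] at h3
    rw [← coeff_lin (Sum.elim β fun _ => conj b)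
      (Sum.elim (fun i => w (Sum.inl i)) fun _ => ∑ i, w (Sum.inl i) * conj (β i))
      (f k) d hkd.le, ← h3]
    congr 1
    congr 1
    congr 1
    funext i
    rcases i with i | i
    · rfl
    · rfl
  · rw [Complex.conj_conj]
    have hw : Sum.elim (fun i => w (Sum.inl i)) (fun i => w (Sum.inr i)) = w :=
      Sum.elim_comp_inl_inr w
    rw [hw]
    exact e4

end Pool.Agent.Helper99.DC
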