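import Pool.Agent.Helper69.DC.Goals2

/-!
# Project DC (MP_628424_an): the shift argument with `q` windows (`H_SQ`)
-/

set_option autoImplicit false

namespace Pool.Agent.Helper99.DC

open Pool.Agent.Helper69.DC Finset

section

variable {M : ℕ}

/-- Extension by zero. -/
def ex {n : ℕ} (κ : Fin n → ℂ) (j : ℕ) : ℂ := if h : j < n then κ ⟨j, h⟩ else 0

theorem ex_lt {n : ℕ} (κ : Fin n → ℂ) {j : ℕ} (h : j < n) : ex κ j = κ ⟨j, h⟩ := dif_pos h

theorem ex_add {n : ℕ} (κ κ' : Fin n → ℂ) (j : ℕ) : ex (κ + κ') j = ex κ j + ex κ' j := by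
  unfold ex
  split_ifs
  · rfl
  · rw [add_zero]

theorem ex_smul {n : ℕ} (c : ℂ) (κ : Fin n → ℂ) (j : ℕ) : ex (c • κ) j = c * ex κ j := by
  unfold ex
  split_ifs
  · rfl
  · rw [mul_zero]

/-- The combination with coefficients `κ` in the window `l`. -/
noncomputable def wi (A : ℕ → Fin M → ℂ) (d n l : ℕ) : (Fin n → ℂ) →ₗ[ℂ] (Fin M → ℂ) where
  toFun κ := ∑ j ∈ range (d + 1), ex κ (j + l) • A j
  map_add' κ κ' := by simp only [ex_add, add_smul, sum_add_distrib]
  map_smul' c κ := by simp only [ex_smul, mul_smul, smul_sum, RingHom.id_apply]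

/-- The shifted combination. -/
noncomputable def sh (A : ℕ → Fin M → ℂ) (d n : ℕ) : (Fin n → ℂ) →ₗ[ℂ] (Fin M → ℂ) where
  toFun κ := ∑ j ∈ range d, ex κ j • A (j + 1)
  map_add' κ κ' := by simp only [ex_add, add_smul, sum_add_distrib]
  map_smul' c κ := by simp only [ex_smul, mul_smul, smul_sum, RingHom.id_apply]

/-- The shift. -/
noncomputable def TT (φ : (Fin M → ℂ) →ₗ[ℂ] ℂ) (A : ℕ → Fin M → ℂ) (d m : ℕ) :
    (Fin (m + 1) → ℂ) →ₗ[ℂ] (Fin (m + 1) → ℂ) where
  toFun κ := Fin.cons (-φ (sh A d (m + 1) κ)) (fun j : Fin m => κ j.castSucc)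
  map_add' κ κ' := by
    funext i
    refine Fin.cases ?_ (fun j => ?_) i
    · simp only [map_add, Fin.cons_zero, Pi.add_apply]
      ring
    · simp only [Fin.cons_succ, Pi.add_apply]
  map_smul' c κ := by
    funext i
    refine Fin.cases ?_ (fun j => ?_) i
    · simp only [map_smul, Fin.cons_zero, Pi.smul_apply, smul_eq_mul, RingHom.id_apply]
      ring
    · simp only [Fin.cons_succ, Pi.smul_apply, RingHom.id_apply]

theorem ex_TT_zero (φ : (Fin M → ℂ) →ₗ[ℂ] ℂ) (A : ℕ → Fin M → ℂ) (d m : ℕ)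
    (κ : Fin (m + 1) → ℂ) : ex (TT φ A d m κ) 0 = -φ (sh A d (m + 1) κ) := by
  rw [ex_lt _ (Nat.succ_pos m)]
  rfl

theorem ex_TT_succ (φ : (Fin M → ℂ) →ₗ[ℂ] ℂ) (A : ℕ → Fin M → ℂ) (d m : ℕ)
    (κ : Fin (m + 1) → ℂ) {j : ℕ} (hj : j < m) : ex (TT φ A d m κ) (j + 1) = ex κ j := by
  rw [ex_lt _ (Nat.succ_lt_succ hj), ex_lt _ (lt_trans hj (Nat.lt_succ_self m))]
  rfl

end

/-- **H_SQ**. -/
theorem h_sq : Pool.Agent.Helper69.DC.H_SQ := by
  intro d M q A hq h0 hd hv hsh κ₀ hκ₀
  obtain ⟨q, rfl⟩ : ∃ q', q = q' + 1 := ⟨q - 1, by omega⟩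
  set m := d + q with hm
  have hmq : d + (q + 1) = m + 1 := by omega
  -- a functional with value `1` at `A 0`
  obtain ⟨r, hr⟩ : ∃ r, A 0 r ≠ 0 := by
    by_contra hc
    push Not at hc
    exact h0 (funext hc)
  set φ : (Fin M → ℂ) →ₗ[ℂ] ℂ := (A 0 r)⁻¹ • LinearMap.proj r with hφ
  have hφ1 : φ (A 0) = 1 := by
    rw [hφ]
    simp [hr]
  -- the space of the solutions
  set K : Submodule ℂ (Fin (m + 1) → ℂ) :=
    ⨅ l : Fin (q + 1), LinearMap.ker (wi A d (m + 1) l) with hK
  have hmem : ∀ κ : Fin (m + 1) → ℂ, κ ∈ K ↔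
      ∀ l < q + 1, ∑ j ∈ range (d + 1), ex κ (j + l) • A j = 0 := by
    intro κ
    rw [hK, Submodule.mem_iInf]
    constructor
    · intro h l hl
      have := h ⟨l, hl⟩
      rw [LinearMap.mem_ker] at this
      exact this
    · intro h l
      rw [LinearMap.mem_ker]
      exact h l l.2
  have hstab : ∀ κ ∈ K, TT φ A d m κ ∈ K := by
    intro κ hκ
    rw [hmem] at hκ ⊢
    obtain ⟨c, hc⟩ := hsh (ex κ) hκ
    have hs : sh A d (m + 1) κ = c • A 0 := hc
    intro l hl
    rcases Nat.eq_zero_or_pos l with hl0 | hl0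
    · subst hl0
      rw [sum_range_succ']
      simp only [add_zero, zero_add]
      have e1 : ∑ k ∈ range d, ex (TT φ A d m κ) (k + 1) • A (k + 1) = c • A 0 := by
        rw [← hc]
        refine sum_congr rfl fun k hk => ?_
        rw [mem_range] at hk
        rw [ex_TT_succ φ A d m κ (by omega)]
      rw [e1, ex_TT_zero, hs, map_smul, hφ1, smul_eq_mul, mul_one, neg_smul, add_neg_cancel]
    · obtain ⟨l, rfl⟩ : ∃ l', l = l' + 1 := ⟨l - 1, by omega⟩
      rw [← hκ l (by omega)]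
      refine sum_congr rfl fun j hj => ?_
      rw [mem_range] at hj
      rw [← add_assoc, ex_TT_succ φ A d m κ (by omega)]
  -- the given solution
  by_contra hcon
  push Not at hcon
  obtain ⟨i, hi, hi0⟩ := hcon
  set g : Fin (m + 1) → ℂ := fun j => κ₀ j with hg
  have hgK : g ∈ K := by
    rw [hmem]
    intro l hl
    rw [← hκ₀ l hl]
    refine sum_congr rfl fun j hj => ?_
    rw [mem_range] at hj
    rw [ex_lt _ (show j + l < m + 1 by omega)]
  have : Nontrivial K := by
    refine ⟨⟨⟨g, hgK⟩, 0, fun h => hi0 ?_⟩⟩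
    have h1 : g = 0 := congrArg Subtype.val h
    exact congrFun h1 ⟨i, by omega⟩
  obtain ⟨e, he⟩ := Module.End.exists_eigenvalue ((TT φ A d m).restrict hstab)
  obtain ⟨κ, hκ⟩ := he.exists_hasEigenvector
  have hκ0 : (κ : Fin (m + 1) → ℂ) ≠ 0 := fun h => hκ.2 (Subtype.ext h)
  have hκe : TT φ A d m κ = e • (κ : Fin (m + 1) → ℂ) := congrArg Subtype.val hκ.apply_eq_smul
  have hstep : ∀ j, j < m → ex (κ : Fin (m + 1) → ℂ) j = e * ex (κ : Fin (m + 1) → ℂ) (j + 1) := by
    intro j hj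
    rw [← ex_TT_succ φ A d m _ hj, hκe, ex_smul]
  have hL := (hmem _).1 κ.2
  have hzero : (∀ j, j < m + 1 → ex (κ : Fin (m + 1) → ℂ) j = 0) → False := by
    intro h
    apply hκ0
    funext j
    have := h j j.2
    rw [ex_lt _ j.2] at this
    exact this
  by_cases hez : e = 0
  · -- all the coefficients but the last one are zero
    have hz : ∀ j, j < m → ex (κ : Fin (m + 1) → ℂ) j = 0 := by
      intro j hj
      rw [hstep j hj, hez, zero_mul]
    have h1 := hL q (by omega)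
    rw [sum_range_succ, sum_eq_zero, zero_add] at h1
    · have h2 := (smul_eq_zero.1 h1).resolve_right hd
      apply hzero
      intro j hj
      rcases Nat.lt_or_ge j m with h3 | h3
      · exact hz j h3
      · have h4 : j = d + q := by omega
        rw [h4]
        exact h2
    · intro j hj
      rw [mem_range] at hj
      rw [hz _ (by omega), zero_smul]
  · have hpow : ∀ n, n < m + 1 → ex (κ : Fin (m + 1) → ℂ) n =
        (e⁻¹) ^ n * ex (κ : Fin (m + 1) → ℂ) 0 := by
      intro n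
      induction n with
      | zero => intro _; simp
      | succ n ih =>
        intro hn
        have h1 := hstep n (by omega)
        have h2 := ih (by omega)
        rw [h2] at h1
        rw [pow_succ, mul_assoc, mul_comm e⁻¹, ← mul_assoc, h1, mul_comm e, mul_assoc,
          mul_inv_cancel₀ hez, mul_one]
    have hk0 : ex (κ : Fin (m + 1) → ℂ) 0 ≠ 0 := by
      intro h
      apply hzero
      intro j hj
      rw [hpow j hj, h, mul_zero]
    apply hv e⁻¹
    have h5 : ex (κ : Fin (m + 1) → ℂ) 0 • ∑ j ∈ range (d + 1), (e⁻¹) ^ j • A j = 0 := by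
      rw [← hL 0 (by omega), smul_sum]
      refine sum_congr rfl fun j hj => ?_
      rw [mem_range] at hj
      rw [smul_smul, mul_comm, add_zero, ← hpow j (by omega)]
    exact (smul_eq_zero.1 h5).resolve_left hk0

end Pool.Agent.Helper99.DC
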